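import Pool.Agent.W500.CS.Stm2

/-!
# Project CQ (helper500), G2: off the support the Cauchy transform is holomorphic
-/

set_option autoImplicit false

namespace Pool.Agent.W101.CQ.SUP2

open MeasureTheory Metric Set Filter Topology
open Pool.Agent.W500.CS
open Pool.Agent.H586R3.CT (CT)

theorem main : S_SUP2 := by
  intro μ _ z hz
  obtain ⟨U, hU, hU0⟩ := Measure.notMem_support_iff_exists.1 hz
  obtain ⟨r, hr, hrU⟩ := Metric.mem_nhds_iff.1 hU
  have h0 : μ (ball z r) = 0 := measure_mono_null hrU hU0
  have hae : ∀ᵐ ζ ∂μ, ζ ∉ ball z r := by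
    exact measure_eq_zero_iff_ae_notMem.1 h0
  have hfar : ∀ ζ, ζ ∉ ball z r → ∀ w ∈ ball z (r / 2), r / 2 ≤ ‖w - ζ‖ := by
    intro ζ hζ w hw
    rw [mem_ball, not_lt] at hζ
    rw [mem_ball] at hw
    have h1 : dist ζ z ≤ dist ζ w + dist w z := dist_triangle _ _ _
    rw [← dist_eq_norm, dist_comm]
    linarith
  have hr2 : 0 < r / 2 := by positivity
  refine ⟨r / 2, hr2, fun w hw => DifferentiableAt.differentiableWithinAt ?_⟩
  have hmeas : ∀ x : ℂ, Measurable (fun ζ : ℂ => (x - ζ)⁻¹) := fun x =>
    (measurable_const.sub measurable_id).inv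
  have key := hasDerivAt_integral_of_dominated_loc_of_deriv_le (μ := μ) (𝕜 := ℂ)
    (F := fun x ζ => (x - ζ)⁻¹) (F' := fun x ζ => -1 / (x - ζ) ^ 2) (x₀ := w)
    (s := ball z (r / 2)) (bound := fun _ => 1 / (r / 2) ^ 2)
    (isOpen_ball.mem_nhds hw)
    (Eventually.of_forall fun x => (hmeas x).aestronglyMeasurable)
    (by
      refine Integrable.of_bound (hmeas w).aestronglyMeasurable (r / 2)⁻¹ ?_
      filter_upwards [hae] with ζ hζ
      rw [norm_inv]
      exact inv_anti₀ hr2 (hfar ζ hζ w hw))
    (by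
      have : Measurable (fun ζ : ℂ => -1 / (w - ζ) ^ 2) :=
        measurable_const.div ((measurable_const.sub measurable_id).pow_const 2)
      exact this.aestronglyMeasurable)
    (by
      filter_upwards [hae] with ζ hζ x hx
      rw [norm_div, norm_neg, norm_one, norm_pow]
      have := hfar ζ hζ x hx
      gcongr)
    (integrable_const _)
    (by
      filter_upwards [hae] with ζ hζ x hx
      have hne : x - ζ ≠ 0 := by
        intro h
        have := hfar ζ hζ x hx
        rw [h, norm_zero] at this
        linarith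
      exact ((hasDerivAt_id x).sub_const ζ).inv hne)
  exact key.2.differentiableAt

end Pool.Agent.W101.CQ.SUP2
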